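import Pool.Agent.H7.TRI.Stmts

/-! Row JVX of the board tri. -/

set_option linter.unusedVariables false

open Finset

namespace Pool.TRI

theorem JVX_thm (hCTR : CTRStmt) (hRET : RETStmt) (hOUT : OUTStmt) (hRCH : RCHStmt) :
    JVXStmt := by
  intro V _ _ G d m hH C hC y hy
  have h1 := hCTR V G d m hH C hC y hy
  have h2 := hRET V G d m hH C hC y hy
  obtain ⟨-, h3, -, -⟩ := hOUT V G d m hH C hC y hy
  obtain ⟨-, h4, h5, h6, -, -, -, -⟩ := hRCH V G d m hH C hC
  have hs : ((SS G C).card : ℤ) = sg G C + 1 := by unfold sg; ring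
  have hs1 : 1 ≤ sg G C := by
    unfold sg
    have : (2 : ℤ) ≤ ((SS G C).card : ℤ) := by exact_mod_cast h5
    linarith
  have hs2 : sg G C ≤ (d : ℤ) - 2 := by
    unfold sg
    have e1 : ((SS G C).card : ℤ) + ((XX G C).card : ℤ) = d + 1 := by exact_mod_cast h4
    have e2 : (2 : ℤ) ≤ ((XX G C).card : ℤ) := by exact_mod_cast h6
    linarith
  have hmu : 0 ≤ mu (sg G C) (xx G C) (df G C y : ℤ) := by
    unfold mu
    exact le_min (by linarith) (le_max_left _ _)
  have ho : ((nb G y \ C).card : ℤ) ≤ (df G C y : ℤ) := by exact_mod_cast h3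
  rw [hs] at h1
  have h7 : 0 ≤ ((df G C y : ℤ) - ((nb G y \ C).card : ℤ)) *
      (((d : ℤ) - 2) - (sg G C - mu (sg G C) (xx G C) (df G C y : ℤ))) :=
    mul_nonneg (by linarith) (by linarith)
  nlinarith [h1, h2, h7]

end Pool.TRI
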